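import Pool.Agent.helper32.NN.Spec

/-! # Project NN: TKP -/

set_option autoImplicit false

open Submodule

noncomputable section

namespace Pool.Agent.NN

universe u v

theorem TKP_sSup {K : Type u} {U : Type v} [Field K] [Ring U] [Algebra K U] {A : Submodule K U}
    {S : Set (Submodule K U)} (h : ∀ J ∈ S, IsId A J) : IsId A (sSup S) := by
  refine ⟨sSup_le fun J hJ => (h J hJ).1, ?_, ?_⟩
  · rw [sSup_eq_iSup, Submodule.mul_iSup]
    refine iSup_le fun J => ?_
    rw [Submodule.mul_iSup]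
    exact iSup_le fun hJ => (h J hJ).2.1.trans (le_iSup₂_of_le J hJ le_rfl)
  · rw [sSup_eq_iSup, Submodule.iSup_mul]
    refine iSup_le fun J => ?_
    rw [Submodule.iSup_mul]
    exact iSup_le fun hJ => (h J hJ).2.2.trans (le_iSup₂_of_le J hJ le_rfl)

theorem TKP_sq {K : Type u} {U : Type v} [Field K] [Ring U] [Algebra K U] {A J : Submodule K U}
    (h : IsId A J) : IsId A (J * J) := by
  obtain ⟨h1, h2, h3⟩ := h
  refine ⟨?_, ?_, ?_⟩
  · exact (mul_le_mul' h1 le_rfl).trans (h2.trans h1)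
  · rw [← mul_assoc]
    exact mul_le_mul' h2 le_rfl
  · rw [mul_assoc]
    exact mul_le_mul' le_rfl h3

/-- the auxiliary chain of ideals -/
def TKP_T {K : Type u} {U : Type v} [Field K] [Ring U] [Algebra K U] (A : Submodule K U) :
    ℕ → Submodule K U
  | 0 => ⊥
  | j + 1 => sSup {J | IsId A J ∧ J * J ≤ TKP_T A j}

theorem TKP_id {K : Type u} {U : Type v} [Field K] [Ring U] [Algebra K U] (A : Submodule K U) :
    ∀ j : ℕ, IsId A (TKP_T A j)
  | 0 => by
      refine ⟨bot_le, ?_, ?_⟩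
      · simp [TKP_T]
      · simp [TKP_T]
  | j + 1 => TKP_sSup fun J hJ => hJ.1

theorem TKP_le {K : Type u} {U : Type v} [Field K] [Ring U] [Algebra K U] (A : Submodule K U) :
    ∀ (j : ℕ) (J : Submodule K U), IsId A J → J ^ (2 ^ j) = ⊥ → J ≤ TKP_T A j
  | 0 => fun J _ h => by
      simp only [pow_zero, pow_one] at h
      rw [h]
      exact bot_le
  | j + 1 => fun J hJ h => by
      refine le_sSup ⟨hJ, TKP_le A j (J * J) (TKP_sq hJ) ?_⟩
      rw [← pow_two, ← pow_mul, ← h, pow_succ 2 j, mul_comm]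

theorem TKP (hREL : REL_stmt.{u, v}) (_hPER : PER_stmt.{u, v}) : TKP_stmt.{u, v} := by
  intro K U _ _ _ A hC k
  have hne : ∀ j : ℕ, TKP_T A j ≠ A := by
    intro j
    induction j with
    | zero =>
      intro h
      apply hC.notn 1
      rw [pow_one]
      exact h.symm
    | succ j ih => exact hREL K U A hC (TKP_T A j) (TKP_id A j) ih
  have hid : IsId A (TT A k) := TKP_sSup fun J hJ => hJ.1
  have hle : TT A k ≤ TKP_T A k := by
    refine sSup_le fun J hJ => TKP_le A k J hJ.1 ?_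
    obtain ⟨m, hm⟩ := Nat.exists_eq_add_of_le (Nat.lt_two_pow_self (n := k)).le
    rw [hm, pow_add, hJ.2, Submodule.bot_mul]
  have hn : TT A k ≠ A := by
    intro h
    exact hne k (le_antisymm (TKP_id A k).1 (h.symm.le.trans hle))
  refine ⟨hid, hn, hC.prop _ hid.1 ((mul_le_mul' hid.1 le_rfl).trans hid.2.1) hn, ?_⟩
  refine sSup_le_sSup fun J hJ => ⟨hJ.1, ?_⟩
  rw [pow_succ, hJ.2, Submodule.bot_mul]

end Pool.Agent.NN
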